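import Pool.Agent.helper52.WP.SpecL

/-!
# Module STP of project wp (MP_af9036_an): the step of the propagation.
-/

set_option autoImplicit false

open Complex Metric Set Filter Topology MeasureTheory
open V3S (UF)
open WP

noncomputable section

namespace WPL

theorem STP_nat_mono {P : Set ℂ} {B χ : ℂ → ℂ} {s t : Set ℂ}
    (h : XPS.IsNat P B χ t) (hst : s ⊆ t) : XPS.IsNat P B χ s :=
  ⟨h.diff.mono hst, fun w hw => h.av w (hst hw), fun w hw => h.eq w (hst hw)⟩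

theorem STP_lev_mono {f : Polynomial ℂ} {P : Set ℂ} {B : ℂ → ℂ} {G : ℕ → ℂ → ℂ}
    {s t : Set ℂ} {Q : ℕ} (h : WPS.LevSys f P B G t Q) (hst : s ⊆ t) : WPS.LevSys f P B G s Q :=
  ⟨STP_nat_mono h.nat0 hst, fun q hq => (h.diff q hq).mono hst,
    fun q hq w hw => h.rel q hq w (hst hw), fun q hq w hw => h.av q hq w (hst hw)⟩

/-- numerical condition of the chain step. -/
theorem STP_e3 (n M : ℕ) (h r₀ : ℝ) (hn : 2 ≤ n) (hh : 0 < h) (hr₀ : 0 < r₀) :
    0 < min r₀ (h / (16 * (M + 1) * n)) ^ 2 / PPS.cn n ∧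
    min r₀ (h / (16 * (M + 1) * n)) ^ 2 / PPS.cn n ≤ XPS.e3 n M h r₀ := by
  have hn0 : (0 : ℝ) < n := by
    have : 0 < n := by omega
    exact_mod_cast this
  have hM0 : (0 : ℝ) ≤ M := Nat.cast_nonneg M
  have hcn : 0 < PPS.cn n := by unfold PPS.cn; positivity
  set c₀ : ℝ := min r₀ (h / (16 * (M + 1) * n)) with hc₀
  have hc₀0 : 0 < c₀ := lt_min hr₀ (by positivity)
  refine ⟨by positivity, ?_⟩
  have hd : c₀ ≤ XPS.d3 n M h r₀ := by
    unfold XPS.d3
    exact le_min (min_le_left _ _) (min_le_right _ _)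
  unfold XPS.e3
  exact div_le_div_of_nonneg_right (pow_le_pow_left₀ (by positivity) hd 2) hcn.le

theorem STP_eT (M : ℕ) (E om Cb : ℝ) (hE : 0 ≤ E)
    (hNE : E ≤ om) :
    XPS.eT M E (Cb * om) ≤ (M + 1 + 4 * Cb) * om := by
  have hM0 : (0 : ℝ) ≤ M := Nat.cast_nonneg M
  unfold XPS.eT
  have h3 : ((M : ℝ) + 1) * E ≤ ((M : ℝ) + 1) * om :=
    mul_le_mul_of_nonneg_left hNE (by positivity)
  nlinarith

theorem STP (hCHT : CHT_stmt) (hSGN : XPL.SGN_stmt) (hEXB : EXB_stmt) (hCS : WPS.CS_stmt)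
    (hREC : REC_stmt) (hADH : ADH_stmt) (hCB1 : WPC.CB1_stmt) (hCAF : XPL.CAF_stmt) : STP_stmt := by
  intro n Cg D hCg hSeq hLB x hx
  obtain ⟨A, hAinf, hgood⟩ := hSeq.good
  obtain ⟨h, hh, η₁, hη₁, C₁, hC₁, hh1, hcht⟩ := hCHT n Cg D hCg hSeq hLB x hx
  obtain ⟨CK, hCK, hREC⟩ := hREC
  have hC₁0 : 0 < C₁ := by linarith
  refine ⟨min (min η₁ (h / (20 * C₁))) 1, by positivity, ?_⟩
  rintro y hy ⟨r, hr, C, hC, hctl⟩ y' hy'
  have hyη : y ∈ ball x η₁ :=
    ball_subset_ball ((min_le_left _ _).trans (min_le_left _ _)) hy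
  have hy1 : dist y x < 1 := lt_of_lt_of_le (mem_ball.1 hy) (min_le_right _ _)
  have hyh : dist y x < h / (20 * C₁) :=
    lt_of_lt_of_le (mem_ball.1 hy) ((min_le_left _ _).trans (min_le_right _ _))
  have hyh' : dist y' x < h / (20 * C₁) :=
    lt_of_lt_of_le (mem_ball.1 hy') ((min_le_left _ _).trans (min_le_right _ _))
  have hyy : ‖y' - y‖ ≤ h / (10 * C₁) := by
    have h1 := dist_triangle_right y' y x
    rw [dist_eq_norm y' y] at h1
    have h2 : h / (20 * C₁) + h / (20 * C₁) = h / (10 * C₁) := by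
      field_simp; ring
    linarith
  have hynorm : ‖y‖ ≤ ‖x‖ + 1 := by
    have h1 : ‖y‖ ≤ ‖y - x‖ + ‖x‖ := by
      have := norm_add_le (y - x) x
      rwa [sub_add_cancel] at this
    rw [dist_eq_norm] at hy1
    linarith
  set Cb : ℝ := max C C₁ with hCb
  have hCb1 : 1 ≤ Cb := hC₁.trans (le_max_right _ _)
  have hCCb : C ≤ Cb := le_max_left _ _
  have hC1Cb : C₁ ≤ Cb := le_max_right _ _
  set r₀ : ℝ := min r (h / 2) with hr₀
  have hr₀0 : 0 < r₀ := lt_min hr (by positivity)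
  have hr₀r : r₀ ≤ r := min_le_left _ _
  have hr₀h : r₀ ≤ h / 2 := min_le_right _ _
  obtain ⟨M, hEXB⟩ := hEXB Cg Cb hCg hCb1
  have hn : 2 ≤ n := (hgood 0).hn
  set K : ℝ := M + 1 + 4 * Cb with hK
  have hM0 : (0 : ℝ) ≤ M := Nat.cast_nonneg M
  have hK0 : 0 < K := by positivity
  set C₃ : ℝ := 16 * K / h ^ 2 with hC₃
  have hC₃0 : 0 ≤ C₃ := by positivity
  set N : ℝ := max Cb C₃ with hN
  have hN1 : 1 ≤ N := hCb1.trans (le_max_left _ _)
  have hN0 : 0 < N := by linarith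
  have hCbN : Cb ≤ N := le_max_left _ _
  have hC3N : C₃ ≤ N := le_max_right _ _
  set C' : ℝ := max (CK * (CK + Cb)) (2 * N) with hC'
  have hC'0 : 0 < C' := lt_of_lt_of_le (by positivity) (le_max_right _ _)
  refine ⟨h / 8, by positivity, C', hC'0, ?_⟩
  set c₁ : ℝ := min r₀ (h / (16 * (M + 1) * n)) ^ 2 / PPS.cn n with hc₁
  have hc₁0 : 0 < c₁ := (STP_e3 n M h r₀ hn hh hr₀0).1
  -- smallness
  obtain ⟨δ, hδ, hδ1, hδ2, hδ3, hδ4⟩ : ∃ δ : ℝ, 0 < δ ∧ K * δ ≤ c₁ ∧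
      N * δ ≤ h / 100 ∧ N * δ ≤ r₀ / 100 ∧ Cb * δ ≤ 1 := by
    have hN1' : 0 < K + N + Cb + 1 := by linarith
    refine ⟨min (min c₁ 1) (min (h / 100) (r₀ / 100)) / (K + N + Cb + 1), by positivity, ?_, ?_, ?_,
      ?_⟩ <;>
    · rw [mul_div_assoc', div_le_iff₀ hN1']
      have hm0 : 0 < min (min c₁ 1) (min (h / 100) (r₀ / 100)) := by positivity
      have hm1 : min (min c₁ 1) (min (h / 100) (r₀ / 100)) ≤ c₁ :=
        (min_le_left _ _).trans (min_le_left _ _)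
      have hm2 : min (min c₁ 1) (min (h / 100) (r₀ / 100)) ≤ 1 :=
        (min_le_left _ _).trans (min_le_right _ _)
      have hm3 : min (min c₁ 1) (min (h / 100) (r₀ / 100)) ≤ h / 100 :=
        (min_le_right _ _).trans (min_le_left _ _)
      have hm4 : min (min c₁ 1) (min (h / 100) (r₀ / 100)) ≤ r₀ / 100 :=
        (min_le_right _ _).trans (min_le_right _ _)
      rw [mul_comm]
      refine mul_le_mul ?_ ?_ (by linarith) (by positivity)
      · first | exact hm1 | exact hm3 | exact hm4 | exact hm2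
      · linarith
  have hom : ∀ᶠ m in UF, (D m).om < δ :=
    (hSeq.om.eventually (gt_mem_nhds hδ)).filter_mono V3S.UF_le
  have hA : ∀ᶠ m in UF, ‖x‖ + 1 + 2 * C₁ < A m :=
    (hAinf.eventually (eventually_gt_atTop _)).filter_mono V3S.UF_le
  filter_upwards [hcht, hctl, hom, hA] with m hm1 hm2 hm3 hm5
  have hG := hgood m
  have hs0 := hG.s0
  have hs1 := hG.s1
  have hom0 := hG.om0
  have hm6 := hG.Eom
  obtain ⟨hAD, -, -, hen⟩ := hADH n Cg (A m) (D m) hG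
  obtain ⟨hsg0, -, -, hzx, -, -, -, -, -, -, -, -, -, -, -, hPt⟩ := hCB1 (D m) hG.rho
  obtain ⟨χ, hχn, hχ0, hχP, hχa, hχl, hχu⟩ := hm1 y hyη
  obtain ⟨χ₁, G₁, Φ₁, ctl⟩ := hm2
  have hval : χ 0 = χ₁ 0 := by rw [hχ0, ctl.val]
  obtain ⟨χ₂, h2n, h20, h2d, h2eq, h2a⟩ := hSGN (D m).PP (D m).H χ χ₁ (16 * h) (2 * r)
    hAD.fin hAD.dif (by positivity) (by positivity) hχn ctl.nat hval
  have h2aff := h2a hχa
  have homδ : (D m).om ≤ δ := hm3.le
  have hχ2z : χ₂ 0 = (D m).zz y := by rw [h20, hχ0]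
  have h0r : (0 : ℂ) ∈ ball (0 : ℂ) r := mem_ball_self hr
  have h0r₀ : (0 : ℂ) ∈ ball (0 : ℂ) r₀ := mem_ball_self hr₀0
  -- agreement of the charts
  have heq0 : EqOn (G₁ 0) χ₂ (ball 0 r₀) := by
    intro w hw
    rw [ctl.g0 (ball_subset_ball hr₀r hw)]
    symm
    apply h2eq
    refine ball_subset_ball (le_min ?_ ?_) hw
    · linarith
    · linarith
  have hkc' : ∀ q, 1 ≤ q → q ≤ (D m).k →
      ‖G₁ q 0 - (D m).zz ((D m).F ((D m).k - q) 0)‖ ≤ Cb * ‖deriv (G₁ q) 0‖ := by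
    intro q hq1 hq2
    exact (ctl.kc q hq1 hq2).trans (mul_le_mul_of_nonneg_right hCCb (norm_nonneg _))
  have hd2u : ‖deriv χ₂ 0‖ ≤ C₁ * ‖(D m).sg‖ := by rw [h2d]; exact hχu
  have hd2l : ‖(D m).sg‖ / C₁ ≤ ‖deriv χ₂ 0‖ := by rw [h2d]; exact hχl
  have hsum0 : ∑ q ∈ Finset.Icc 1 (D m).k, XPS.lev (D m).H G₁ q 0 ≤ C * (D m).om :=
    ctl.sum 0 h0r
  have hCbom : Cb * (D m).om ≤ Cb * δ := mul_le_mul_of_nonneg_left homδ (by linarith)
  have hCom : C * (D m).om ≤ Cb * (D m).om := mul_le_mul_of_nonneg_right hCCb hom0.le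
  have hexc := hEXB n (A m) (D m) hG y h r χ₂ G₁ hh hh1 hr h2n hχ2z h2aff
    (hd2u.trans (mul_le_mul_of_nonneg_right hC1Cb (norm_nonneg _))) ctl.lev
    (by rw [ctl.g0 h0r, ctl.val, hχ2z]) (by linarith) hkc'
  -- the image of the chart
  obtain ⟨-, -, hbi, -⟩ := hCAF (D m).PP (D m).H χ₂ (16 * h) (by positivity) h2n h2aff
  have hsgn : 0 < ‖(D m).sg‖ := norm_pos_iff.mpr hsg0
  have hd2pos : 0 < ‖deriv χ₂ 0‖ := lt_of_lt_of_le (by positivity) hd2l
  have hmp : MapsTo χ₂ (ball 0 h) (ball 0 (D m).rad) := by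
    intro w hw
    have hw' : ‖w‖ < h := by simpa using hw
    have h1 := (hbi w (ball_subset_ball (by linarith) hw) 0 (mem_ball_self (by positivity))).2
    rw [sub_zero] at h1
    have h2 : ‖χ₂ w - χ₂ 0‖ ≤ 2 * C₁ * ‖(D m).sg‖ := by
      refine h1.trans ?_
      have e2 : ‖deriv χ₂ 0‖ * ‖w‖ ≤ C₁ * ‖(D m).sg‖ * 1 :=
        mul_le_mul hd2u (by linarith) (norm_nonneg _) (by positivity)
      have e3 : 0 < C₁ * ‖(D m).sg‖ := by positivity
      nlinarith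
    have h3 : ‖(D m).xx (χ₂ w)‖ < A m := by
      have e1 : (D m).xx (χ₂ w) = (χ₂ w - χ₂ 0) / (D m).sg + y := by
        rw [hχ2z]
        unfold Dat.xx Dat.zz
        field_simp
        ring
      rw [e1]
      have e2 := norm_add_le ((χ₂ w - χ₂ 0) / (D m).sg) y
      have e3 : ‖(χ₂ w - χ₂ 0) / (D m).sg‖ ≤ 2 * C₁ := by
        rw [norm_div, div_le_iff₀ hsgn]
        exact h2
      linarith
    have h4 := hG.radb _ h3
    rw [hzx] at h4
    rw [mem_ball_zero_iff]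
    exact h4
  have hfar : ∀ w ∈ ball (0 : ℂ) (16 * h), ∀ q ≤ (D m).k + 1, ∀ z ∈ (D m).PP,
      (fun y : ℂ => (D m).f.eval y)^[q] z ≠ χ₂ w := by
    intro w hw q hq z hz heq
    have h1 := hPt z hz q hq
    rw [heq] at h1
    refine hχP (χ₂ w) ?_ h1
    have hw' : ‖w‖ < 16 * h := by simpa using hw
    have h2 := (hbi w hw 0 (mem_ball_self (by positivity))).2
    rw [sub_zero] at h2
    rw [mem_ball, dist_eq_norm, ← h20, ← h2d]
    refine lt_of_le_of_lt h2 ?_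
    have h3 : ‖deriv χ₂ 0‖ * ‖w‖ ≤ ‖deriv χ₂ 0‖ * (16 * h) :=
      mul_le_mul_of_nonneg_left hw'.le (norm_nonneg _)
    have h4 : 0 < h * ‖deriv χ₂ 0‖ := by positivity
    nlinarith
  -- the chain step
  classical
  set PX : Finset ℕ := (Finset.range (D m).k).filter fun q => 1 ≤ q ∧
    ‖G₁ q 0 - χ₂ 0‖ < 8 * h * ‖deriv χ₂ 0‖ with hPX
  have hPXcard : PX.card ≤ M := by
    refine le_trans (le_of_eq ?_) hexc
    rw [← Set.ncard_coe_finset]
    congr 1
    ext q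
    simp only [hPX, Finset.coe_filter, Finset.mem_range, Set.mem_setOf_eq]
    tauto
  have hE0 : 0 ≤ (D m).E := hG.eng.E0
  have hSU : WPS.SU3 n (D m).k (D m).f (D m).PP (D m).H (D m).rad (D m).E
      (Cb * (D m).om) h r₀ χ₂ G₁ PX M :=
    { hn := hG.hn
      hdeg := hG.hdeg
      ad := hAD
      posR := hG.eng.posR
      inv := hG.eng.inv
      E0 := hE0
      hE := hen
      h0 := hh
      h1 := hh1
      r0 := hr₀0
      r1 := hr₀h
      nat := h2n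
      far := hfar
      aff := h2aff
      mp := hmp
      t0 := heq0
      tdiff := fun q hq => (ctl.lev.diff q hq).mono (ball_subset_ball hr₀r)
      trel := fun q hq w hw => ctl.lev.rel q hq w (ball_subset_ball hr₀r hw)
      tlev := hsum0.trans hCom
      hPP := by
        intro p hp1 hp2 hp3
        by_contra hcon
        push Not at hcon
        exact hp3 (by
          simp only [hPX, Finset.mem_filter, Finset.mem_range]
          exact ⟨hp2, hp1, hcon⟩)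
      hM := hPXcard }
  have heT : XPS.eT M (D m).E (Cb * (D m).om) ≤ K * (D m).om :=
    STP_eT M (D m).E (D m).om Cb hE0 hm6
  have heT2 : XPS.eT M (D m).E (Cb * (D m).om) ≤
      XPS.e3 n M h r₀ := by
    refine heT.trans (le_trans ?_ (STP_e3 n M h r₀ hn hh hr₀0).2)
    rw [← hc₁]
    exact (mul_le_mul_of_nonneg_left homδ hK0.le).trans hδ1
  obtain ⟨G, hG0, hGl, hGe, -, -, hGs⟩ := hCS n (D m).k (D m).f (D m).PP (D m).H (D m).rad
    (D m).E (Cb * (D m).om) h r₀ χ₂ G₁ PX M hSU heT2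
  have hNomδ : N * (D m).om ≤ N * δ := mul_le_mul_of_nonneg_left homδ hN0.le
  have hder : ∀ q ≤ (D m).k, deriv (G q) 0 = deriv (G₁ q) 0 := by
    intro q hq
    apply Filter.EventuallyEq.deriv_eq
    exact Filter.eventuallyEq_of_mem (ball_mem_nhds 0 hr₀0) (hGe q hq)
  refine hREC n Cg (A m) (D m) hG y y' h r₀ Cb C₁ (N * (D m).om) χ₂ G Φ₁
    hh hh1 hr₀0 hr₀h hCb1 hC₁
    (by positivity) (by linarith) (by linarith) h2n hχ2z h2aff hd2l hyy
    (STP_lev_mono hGl (ball_subset_ball (by linarith)))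
    (by rw [hG0]; exact Set.eqOn_refl _ _) ?_ (ctl.phd.mono (ball_subset_ball hr₀r)) ?_ ?_
    C' (le_max_left _ _) ?_
  · intro w hw
    refine ((hGs w hw).1).trans ?_
    have hh2 : 0 < h ^ 2 := by positivity
    have e1 : 16 * XPS.eT M (D m).E (Cb * (D m).om) / h ^ 2 ≤
        C₃ * (D m).om := by
      rw [hC₃, div_mul_eq_mul_div, div_le_div_iff_of_pos_right hh2]
      linarith
    exact e1.trans (mul_le_mul_of_nonneg_right hC3N hom0.le)
  · intro w hw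
    have hwr : w ∈ ball (0 : ℂ) r := ball_subset_ball hr₀r hw
    obtain ⟨-, hp2, hp3⟩ := ctl.phi w hwr
    have hp4 : ‖Φ₁ w - w‖ ≤ N * (D m).om :=
      hp2.trans (mul_le_mul_of_nonneg_right (hCCb.trans hCbN) hom0.le)
    have hw' : ‖w‖ < r₀ := by simpa using hw
    have hp5 : ‖Φ₁ w‖ < 2 * r₀ := by
      have := norm_add_le (Φ₁ w - w) w
      rw [sub_add_cancel] at this
      linarith
    refine ⟨?_, hp4, ?_⟩
    · rw [mem_ball_zero_iff]; linarith
    · have hp6 : Φ₁ w ∈ ball (0 : ℂ) (min (16 * h) (2 * r)) := by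
        rw [mem_ball_zero_iff]
        refine lt_min ?_ ?_ <;> linarith
      rw [h2eq hp6, hp3, hGe (D m).k le_rfl hw]
  · intro q hq1 hq2
    rw [hGe q hq2 h0r₀, hder q hq2]
    exact hkc' q hq1 hq2
  · have e1 : 2 * N ≤ C' := le_max_right _ _
    calc 2 * (N * (D m).om) = 2 * N * (D m).om := by ring
      _ ≤ C' * (D m).om := mul_le_mul_of_nonneg_right e1 hom0.le

end WPL
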